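import Pool.Agent.K6.H16.CP.Tf

/-!
# Critical points of stationary waves (MP_4fa179_mp)

Every Benjamini-Schramm limit of Laplace eigenfunctions of a compact Riemannian manifold of
dimension `d`, rescaled to eigenvalue `1`, is the law of a stationary random field on `ℝ^d` with
smooth samples, `ΔF + F = 0` and `E F(0)² ≤ 1`. The theorem is about all such fields: the mean
number of nondegenerate critical points of `F` in a cube of side `1` is at most `(e d / 2)^d`. For
a single eigenfunction nothing like this is true (Buhovsky, Logunov and Sodin: infinitely many
isolated critical points on a two-dimensional torus with a smooth metric).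

Proof idea. The energy identity bounds the second moments of all partial derivatives of `F` by the
second moment of `F`. Hence the Taylor polynomials of degree `n` of `∇F` are, with high probability,
close to `∇F` on `[-L, L]^d`, together with their first derivatives, as soon as `n > A L` with
`A > e d`. By a quantitative inverse function theorem the quantitatively nondegenerate zeros of
`∇F` become nondegenerate zeros of a polynomial vector field of degree `n + 1`, and these are at
most `(n + 1)^d`: the field is perturbed by `ε y_i^(n + 1)`, and the monomials with exponents at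
most `n` span the coordinate ring. Stationarity turns the bound `(n + 1)^d` for the
box of volume `(2 L)^d` into a bound for a cell of any size, with `L → ∞` and then `A → e d`; the
number of points is the limit of the number of cells that are hit.
-/

set_option autoImplicit false
open MeasureTheory Filter Topology
open scoped ContDiff ENNReal

namespace Pool.Agent.Results.MP_4fa179_mp.CriticalPoints

noncomputable section

/-- the partial derivative `∂_i f` -/
def pderiv {d : ℕ} (i : Fin d) (f : EuclideanSpace ℝ (Fin d) → ℝ)
    (y : EuclideanSpace ℝ (Fin d)) : ℝ :=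
  fderiv ℝ f y (EuclideanSpace.single i 1)

/-- the Laplacian `∑ ∂_i²` of `ℝ^d` -/
def laplacian {d : ℕ} (f : EuclideanSpace ℝ (Fin d) → ℝ) (y : EuclideanSpace ℝ (Fin d)) : ℝ :=
  ∑ i, pderiv i (pderiv i f) y

/-- the Hessian matrix -/
def hessian {d : ℕ} (f : EuclideanSpace ℝ (Fin d) → ℝ) (y : EuclideanSpace ℝ (Fin d)) :
    Matrix (Fin d) (Fin d) ℝ :=
  Matrix.of fun i j => pderiv j (pderiv i f) y

/-- `F` is a stationary random field on `ℝ^d` with smooth samples, `ΔF + F = 0` and `E F(0)² < ∞`.
Stationary means: the shifted field has the same law, in the product of copies of `ℝ` indexed by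
the points of `ℝ^d`. -/
structure IsStationaryWave {d : ℕ} {S : Type*} [MeasurableSpace S] (P : Measure S)
    (F : S → EuclideanSpace ℝ (Fin d) → ℝ) : Prop where
  prob : IsProbabilityMeasure P
  measurable : ∀ y, Measurable fun s => F s y
  smooth : ∀ s, ContDiff ℝ ∞ (F s)
  eigen : ∀ s y, laplacian (F s) y + F s y = 0
  stationary : ∀ x : EuclideanSpace ℝ (Fin d),
    P.map (fun s y => F s (y + x)) = P.map (fun s y => F s y)
  moment : Integrable (fun s => F s 0 ^ 2) P

/-- the number, in `[0, ∞]`, of the nondegenerate critical points of the sample `F s` in the cube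
`[0, 1)^d`: all first partial derivatives vanish and the Hessian matrix is invertible -/
def criticalPoints {d : ℕ} {S : Type*} (F : S → EuclideanSpace ℝ (Fin d) → ℝ) (s : S) : ℝ≥0∞ :=
  ({x : EuclideanSpace ℝ (Fin d) | (∀ i, x i ∈ Set.Ico (0 : ℝ) 1) ∧ (∀ i, pderiv i (F s) x = 0) ∧
    (hessian (F s) x).det ≠ 0}.encard : ℝ≥0∞)

/-- **Result.** Let `F` be a stationary wave in `ℝ^d`. The number of nondegenerate critical points
in the unit cube is a random variable, and its mean on the event `F ≢ 0` is at most
`(e d / 2)^d` times the probability of that event. -/
theorem result {d : ℕ} {S : Type*} [MeasurableSpace S] (P : Measure S)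
    (F : S → EuclideanSpace ℝ (Fin d) → ℝ) (hF : IsStationaryWave P F) :
    Measurable (criticalPoints F) ∧
    ∫⁻ s in {s | ∃ y, F s y ≠ 0}, criticalPoints F s ∂P ≤
      ENNReal.ofReal ((Real.exp 1 * d / 2) ^ d) * P {s | ∃ y, F s y ≠ 0} := by
  have := hF.prob
  exact Pool.Agent.K6.H16.CP.fin (P := P) hF.measurable hF.smooth hF.eigen
    hF.stationary hF.moment

end

end Pool.Agent.Results.MP_4fa179_mp.CriticalPoints
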