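import Pool.Agent.K6.H16.QS.N

/-!
# Doubling of stationary waves (MP_4fa179_mp)

Every Benjamini-Schramm limit of Laplace eigenfunctions of a compact Riemannian manifold of
dimension `d`, rescaled to eigenvalue `1`, is the law of a stationary random field on `ℝ^d` with
smooth samples, `ΔF + F = 0` and `E F(0)² ≤ 1`. The theorem is about all such fields, with a
constant which depends on the dimension only: on the event that `F` does not vanish identically,
the expectation of `log (sup_{|x| ≤ ρ} |F(x)| / |F(0)|)` is at most `90 d⁴ (1 + ρ)` times the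
probability of the event.

Proof idea. Almost surely `F` extends to an entire function `Φ` on `ℂ^d`, and for a list
`v_1, …, v_m` of vectors the maximum `N(z)` of `log √(|Φ|² + ε)` over the points
`z + i (± v_1 ± … ± v_m)` is plurisubharmonic, invariant under conjugation, and stationary in the
real directions. Hence `E N(iv)` is an even function of `v`, convex on lines, of slope at most `d`;
as `N(iv) = N(-iv)`, the expectation of `N(0)` grows by at most `d |v|` when `± v` is added to the
list. Dyadic lists give `E log sup |Φ(i ·)| ≤ E log |F(0)| + d² R` for the supremum over a cube of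
side `2R`. The function `Φ(iη)` solves `Δψ = ψ`; a gradient estimate in the imaginary directions
and Taylor series then bound `F` on a real ball of radius `c R`.
-/

set_option autoImplicit false
open MeasureTheory Filter Topology
open scoped ContDiff ENNReal

namespace Pool.Agent.Results.MP_4fa179_mp.Doubling

noncomputable section

/-- the Laplacian `∑ ∂_i²` of `ℝ^d` -/
def laplacian {d : ℕ} (f : EuclideanSpace ℝ (Fin d) → ℝ) (y : EuclideanSpace ℝ (Fin d)) : ℝ :=
  ∑ i, fderiv ℝ (fun z => fderiv ℝ f z (EuclideanSpace.single i 1)) y (EuclideanSpace.single i 1)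

/-- `F` is a stationary random field on `ℝ^d` with smooth samples, `ΔF + F = 0` and `E F(0)² < ∞`.
Stationary means: the shifted field has the same law, in the product of copies of `ℝ` indexed by
the points of `ℝ^d`. -/
structure IsStationaryWave {d : ℕ} {S : Type*} [MeasurableSpace S] (P : Measure S)
    (F : S → EuclideanSpace ℝ (Fin d) → ℝ) : Prop where
  prob : IsProbabilityMeasure P
  measurable : ∀ y, Measurable fun s => F s y
  smooth : ∀ s, ContDiff ℝ ∞ (F s)
  eigen : ∀ s y, laplacian (F s) y + F s y = 0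
  stationary : ∀ x : EuclideanSpace ℝ (Fin d),
    P.map (fun s y => F s (y + x)) = P.map (fun s y => F s y)
  moment : Integrable (fun s => F s 0 ^ 2) P

/-- the supremum of `|f|` over the closed ball of radius `ρ` about the origin -/
def supBall {d : ℕ} (ρ : ℝ) (f : EuclideanSpace ℝ (Fin d) → ℝ) : ℝ :=
  sSup ((fun x => |f x|) '' Metric.closedBall 0 ρ)

/-- `log (a / b)` in `[0, ∞]` for `0 ≤ b ≤ a`; it is `∞` for `b = 0` -/
def logRatio (a b : ℝ) : ℝ≥0∞ := if b = 0 then ⊤ else ENNReal.ofReal (Real.log (a / b))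

lemma const1 {d : ℕ} (hd : 1 ≤ d) {ρ : ℝ} (hρ : 0 ≤ ρ) :
    Pool.Agent.K6.H16.QS.C1 d ρ ≤ 90 * d ^ 4 * (1 + ρ) := by
  unfold Pool.Agent.K6.H16.QS.C1
  have h1 : (1 : ℝ) ≤ d := by exact_mod_cast hd
  have l2 : Real.log 2 ≤ 1 := by
    have := Real.log_two_lt_d9
    linarith
  have h2 : (1 : ℝ) ≤ (d : ℝ) ^ 2 := by nlinarith
  have h3 : (d : ℝ) ^ 3 ≤ (d : ℝ) ^ 4 := pow_le_pow_right₀ h1 (by norm_num)
  have h4 : (d : ℝ) ^ 2 ≤ (d : ℝ) ^ 4 := pow_le_pow_right₀ h1 (by norm_num)
  have e : (d : ℝ) ^ 2 * (6 * d * (13 + 2 * d) * ρ + 1) =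
      78 * ((d : ℝ) ^ 3 * ρ) + 12 * ((d : ℝ) ^ 4 * ρ) + (d : ℝ) ^ 2 := by ring
  rw [e]
  have h5 : (d : ℝ) ^ 3 * ρ ≤ (d : ℝ) ^ 4 * ρ := mul_le_mul_of_nonneg_right h3 hρ
  nlinarith

/-- **Result.** Let `F` be a stationary wave in `ℝ^d` and `ρ ≥ 0`. The integral of
`log (sup_{|x| ≤ ρ} |F(x)| / |F(0)|)`, which is `∞` where `F(0) = 0`, over the event `F ≢ 0` is at
most `90 d⁴ (1 + ρ) P(F ≢ 0)`. -/
theorem result {d : ℕ} {S : Type*} [MeasurableSpace S] (P : Measure S)
    (F : S → EuclideanSpace ℝ (Fin d) → ℝ) (hF : IsStationaryWave P F) (ρ : ℝ) (hρ : 0 ≤ ρ) :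
    ∫⁻ s in {s | ∃ y, F s y ≠ 0}, logRatio (supBall ρ (F s)) |F s 0| ∂P ≤
      ENNReal.ofReal (90 * (d : ℝ) ^ 4 * (1 + ρ)) * P {s | ∃ y, F s y ≠ 0} := by
  have := hF.prob
  obtain ⟨h1, h2, _⟩ := Pool.Agent.K6.H16.QS.wave_fin (P := P) hF.measurable hF.smooth hF.eigen
    hF.stationary hF.moment
  rcases Nat.eq_zero_or_pos d with rfl | hd
  · have e : {s | ∃ y, F s y ≠ 0} = ∅ := by
      ext s
      simp only [Set.mem_ofPred_eq, Set.mem_empty_iff_false, iff_false, not_exists, not_not]
      intro y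
      have := hF.eigen s y
      simpa [laplacian] using this
    rw [e]
    simp
  have mE : MeasurableSet {s | ∃ y, F s y ≠ 0} := by
    have e : {s | ∃ y, F s y ≠ 0} =
        ⋃ n : ℕ, {s | F s (TopologicalSpace.denseSeq (EuclideanSpace ℝ (Fin d)) n) = 0}ᶜ := by
      ext s
      simp only [Set.mem_ofPred_eq, Set.mem_iUnion, Set.mem_compl_iff]
      constructor
      · rintro ⟨y, hy⟩
        by_contra hc
        push Not at hc
        have := (TopologicalSpace.denseRange_denseSeq (EuclideanSpace ℝ (Fin d))).equalizer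
          (hF.smooth s).continuous (continuous_const (y := (0 : ℝ))) (funext fun n => hc n)
        exact hy (congrFun this y)
      · rintro ⟨n, hn⟩
        exact ⟨_, hn⟩
    rw [e]
    exact MeasurableSet.iUnion fun n => ((hF.measurable _) (measurableSet_singleton 0)).compl
  refine le_trans (le_of_eq ?_) ((h2 ρ hρ).trans
    (mul_le_mul_left (ENNReal.ofReal_le_ofReal (const1 hd hρ)) _))
  refine lintegral_congr_ae ?_
  rw [Filter.EventuallyEq, ae_restrict_iff' mE]
  filter_upwards [h1] with s hs h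
  have h0 : |F s 0| ≠ 0 := abs_ne_zero.2 (hs h)
  unfold logRatio
  rw [if_neg h0]
  rfl

end

end Pool.Agent.Results.MP_4fa179_mp.Doubling
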