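import Pool.Agent.K6.H16.QS.N

/-!
# Quasi-symmetry of stationary waves (MP_4fa179_mp)

Every Benjamini-Schramm limit of Laplace eigenfunctions of a compact Riemannian manifold of
dimension `d`, rescaled to eigenvalue `1`, is the law of a stationary random field on `ℝ^d` with
smooth samples, `ΔF + F = 0` and `E F(0)² ≤ 1`. The theorem is about all such fields: `F(0) < 0`
and `F(0) > 0` have both probability at least `exp(-640 d⁵)` times the probability that `F` does
not vanish identically.

Proof idea. Let `Φ` be the entire extension of `F` to `ℂ^d` and `M` the supremum of `|Φ|` over the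
imaginary cube of side `2R` about the origin. Plurisubharmonicity of `log |Φ|` and stationarity
give `E log M ≤ E log |F(0)| + d² R`, and `|F(y)| ≤ 2M` for `|y| ≤ d + 6` by elliptic regularity in
the imaginary directions, if `R` is large. An explicit kernel `κ ≥ 0` with support in that ball has
`∫ κ F = 0` for all solutions. So `∫ κ |F| / M` is twice `∫ κ F⁻ / M`, whose expectation is at most
`2 P(F(0) < 0) ∫ κ`, while the expectation of the former is bounded below by Jensen's inequality.
-/

set_option autoImplicit false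
open MeasureTheory Filter Topology
open scoped ContDiff ENNReal

namespace Pool.Agent.Results.MP_4fa179_mp.QuasiSymmetry

noncomputable section

/-- the Laplacian `∑ ∂_i²` of `ℝ^d` -/
def laplacian {d : ℕ} (f : EuclideanSpace ℝ (Fin d) → ℝ) (y : EuclideanSpace ℝ (Fin d)) : ℝ :=
  ∑ i, fderiv ℝ (fun z => fderiv ℝ f z (EuclideanSpace.single i 1)) y (EuclideanSpace.single i 1)

/-- `F` is a stationary random field on `ℝ^d` with smooth samples, `ΔF + F = 0` and `E F(0)² < ∞`.
Stationary means: the shifted field has the same law, in the product of copies of `ℝ` indexed by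
the points of `ℝ^d`. -/
structure IsStationaryWave {d : ℕ} {S : Type*} [MeasurableSpace S] (P : Measure S)
    (F : S → EuclideanSpace ℝ (Fin d) → ℝ) : Prop where
  prob : IsProbabilityMeasure P
  measurable : ∀ y, Measurable fun s => F s y
  smooth : ∀ s, ContDiff ℝ ∞ (F s)
  eigen : ∀ s y, laplacian (F s) y + F s y = 0
  stationary : ∀ x : EuclideanSpace ℝ (Fin d),
    P.map (fun s y => F s (y + x)) = P.map (fun s y => F s y)
  moment : Integrable (fun s => F s 0 ^ 2) P

lemma lap_neg {d : ℕ} (f : EuclideanSpace ℝ (Fin d) → ℝ) (y : EuclideanSpace ℝ (Fin d)) :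
    laplacian (fun z => -f z) y = -laplacian f y := by
  unfold laplacian
  rw [← Finset.sum_neg_distrib]
  refine Finset.sum_congr rfl fun i _ => ?_
  have e : (fun z => fderiv ℝ (fun z => -f z) z (EuclideanSpace.single i 1)) =
      fun z => -fderiv ℝ f z (EuclideanSpace.single i 1) := by
    funext z
    rw [fderiv_fun_neg]
    rfl
  rw [e, fderiv_fun_neg]
  rfl

lemma neg_wave {d : ℕ} {S : Type*} [MeasurableSpace S] {P : Measure S}
    {F : S → EuclideanSpace ℝ (Fin d) → ℝ} (hF : IsStationaryWave P F) :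
    IsStationaryWave P fun s y => -F s y := by
  refine ⟨hF.prob, fun y => (hF.measurable y).neg, fun s => (hF.smooth s).neg, fun s y => ?_,
    fun x => ?_, ?_⟩
  · rw [lap_neg]
    have := hF.eigen s y
    linarith
  · have mn : Measurable fun (f : EuclideanSpace ℝ (Fin d) → ℝ) y => -f y :=
      measurable_pi_iff.2 fun y => (measurable_pi_apply y).neg
    have h1 := Measure.map_map mn (measurable_pi_iff.2 fun y => hF.measurable (y + x) :
      Measurable fun s y => F s (y + x)) (μ := P)
    have h2 := Measure.map_map mn (measurable_pi_iff.2 hF.measurable :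
      Measurable fun s y => F s y) (μ := P)
    rw [hF.stationary x, h2] at h1
    exact h1.symm
  · simpa using hF.moment

lemma const2 {d : ℕ} (hd : 1 ≤ d) :
    Real.exp (-(640 * (d : ℝ) ^ 5)) ≤ Pool.Agent.K6.H16.QS.C2 d := by
  unfold Pool.Agent.K6.H16.QS.C2
  have h1 : (1 : ℝ) ≤ d := by exact_mod_cast hd
  have h2 : (d : ℝ) ^ 2 ≤ (d : ℝ) ^ 5 := pow_le_pow_right₀ h1 (by norm_num)
  have h3 : (d : ℝ) ^ 3 ≤ (d : ℝ) ^ 5 := pow_le_pow_right₀ h1 (by norm_num)
  have h4 : (d : ℝ) ^ 4 ≤ (d : ℝ) ^ 5 := pow_le_pow_right₀ h1 (by norm_num)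
  have h0 : (1 : ℝ) ≤ (d : ℝ) ^ 5 := one_le_pow₀ h1
  have e2 : (4 : ℝ) ≤ Real.exp 2 := by
    have h := Real.exp_one_gt_d9
    have : Real.exp 2 = Real.exp 1 * Real.exp 1 := by rw [← Real.exp_add]; norm_num
    nlinarith
  have e3 : Real.exp (-2) ≤ 1 / 4 := by
    rw [Real.exp_neg, one_div]
    exact inv_anti₀ (by norm_num) e2
  have ex : -(640 * (d : ℝ) ^ 5) ≤
      -((d : ℝ) ^ 2 * (6 * d * (13 + 2 * d) * ((d : ℝ) + 6) + 1)) + -2 := by
    have e : (d : ℝ) ^ 2 * (6 * d * (13 + 2 * d) * ((d : ℝ) + 6) + 1) =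
        12 * (d : ℝ) ^ 5 + 150 * (d : ℝ) ^ 4 + 468 * (d : ℝ) ^ 3 + (d : ℝ) ^ 2 := by ring
    rw [e]
    linarith
  refine (Real.exp_le_exp.2 ex).trans ?_
  rw [Real.exp_add]
  have := Real.exp_pos (-((d : ℝ) ^ 2 * (6 * d * (13 + 2 * d) * ((d : ℝ) + 6) + 1)))
  nlinarith

/-- **Result.** Let `F` be a stationary wave in `ℝ^d`. Both signs of `F(0)` have probability at
least `exp(-640 d⁵) P(F ≢ 0)`. -/
theorem result {d : ℕ} {S : Type*} [MeasurableSpace S] (P : Measure S)
    (F : S → EuclideanSpace ℝ (Fin d) → ℝ) (hF : IsStationaryWave P F) :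
    ENNReal.ofReal (Real.exp (-(640 * (d : ℝ) ^ 5))) * P {s | ∃ y, F s y ≠ 0} ≤
      min (P {s | F s 0 < 0}) (P {s | 0 < F s 0}) := by
  have := hF.prob
  obtain ⟨_, _, h3⟩ := Pool.Agent.K6.H16.QS.wave_fin (P := P) hF.measurable hF.smooth hF.eigen
    hF.stationary hF.moment
  have nF := neg_wave hF
  obtain ⟨_, _, h4⟩ := Pool.Agent.K6.H16.QS.wave_fin (P := P) nF.measurable nF.smooth nF.eigen
    nF.stationary nF.moment
  simp only [neg_ne_zero, Left.neg_neg_iff] at h4
  rcases Nat.eq_zero_or_pos d with rfl | hd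
  · have e : {s | ∃ y, F s y ≠ 0} = ∅ := by
      ext s
      simp only [Set.mem_ofPred_eq, Set.mem_empty_iff_false, iff_false, not_exists, not_not]
      intro y
      have := hF.eigen s y
      simpa [laplacian] using this
    rw [e]
    simp
  refine le_min (le_trans ?_ h3) (le_trans ?_ h4)
  · exact mul_le_mul_left (ENNReal.ofReal_le_ofReal (const2 hd)) _
  · exact mul_le_mul_left (ENNReal.ofReal_le_ofReal (const2 hd)) _

end

end Pool.Agent.Results.MP_4fa179_mp.QuasiSymmetry
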