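import Pool.Agent.K6.H29.OP.A

/-!
# The value distribution of stationary waves away from zero (MP_4fa179_mp)

Every Benjamini-Schramm limit of Laplace eigenfunctions of a compact Riemannian manifold of
dimension `d`, rescaled to eigenvalue `1`, is the law of a stationary random field on `ℝ^d` with
smooth samples, `ΔF + F = 0` and `E F(0)² ≤ 1`. The theorem is about all such fields: for every set
`A` of real numbers of absolute value at least `δ > 0`,

  `P (F(0) ∈ A) ≤ (2 d / π) (2 |A| / δ) ^ (1/2)`.

So the distribution of the values is Hölder continuous with the exponent `1/2` away from zero, with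
constants which depend on `d` and `δ` only. The exponent is the best possible: for a plane wave
`√2 cos (x₁ + θ)` with a uniform random phase the probability of `F(0) ≥ √2 - ε` is asymptotic to
`π⁻¹ (√2 ε) ^ (1/2)` for `ε → 0`.

Proof idea. The expected number of crossings of a level on a short segment in the direction `v` is at
most `|v| / π` (LevelCrossings). Integrated over the levels in `A`, this bounds the
flux: `E[|∂_v G(0)|; G(0) ∈ A] ≤ (|v| / π) |A|`, for every stationary wave `G`, in particular for
`G = F` and `G = ∂_i F`. Let `η > 0`. Where `|∂_i F(0)| > η` for some `i`, the flux through `A` bounds the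
probability by `d |A| / (π η)`. Where `|∂_i F(0)| ≤ η` for all `i` and `|F(0)| ≥ δ`, the equation
`∑ ∂_i ∂_i F = -F` shows that `δ ≤ ∑ |∂_i ∂_i F(0)|`, and the fluxes of the fields `∂_i F` through
`[-η, η]` bound the probability by `2 d η / (π δ)`. Then optimise `η`.
-/

set_option autoImplicit false
open MeasureTheory Filter Topology
open scoped ContDiff ENNReal

namespace Pool.Agent.Results.MP_4fa179_mp.ValueDistribution

noncomputable section

/-- the Laplacian `∑ ∂_i²` of `ℝ^d` -/
def laplacian {d : ℕ} (f : EuclideanSpace ℝ (Fin d) → ℝ) (y : EuclideanSpace ℝ (Fin d)) : ℝ :=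
  ∑ i, fderiv ℝ (fun z => fderiv ℝ f z (EuclideanSpace.single i 1)) y (EuclideanSpace.single i 1)

/-- `F` is a stationary random field on `ℝ^d` with smooth samples, `ΔF + F = 0` and `E F(0)² < ∞`.
Stationary means: the shifted field has the same law, in the product of copies of `ℝ` indexed by
the points of `ℝ^d`. -/
structure IsStationaryWave {d : ℕ} {S : Type*} [MeasurableSpace S] (P : Measure S)
    (F : S → EuclideanSpace ℝ (Fin d) → ℝ) : Prop where
  prob : IsProbabilityMeasure P
  measurable : ∀ y, Measurable fun s => F s y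
  smooth : ∀ s, ContDiff ℝ ∞ (F s)
  eigen : ∀ s y, laplacian (F s) y + F s y = 0
  stationary : ∀ x : EuclideanSpace ℝ (Fin d),
    P.map (fun s y => F s (y + x)) = P.map (fun s y => F s y)
  moment : Integrable (fun s => F s 0 ^ 2) P

/-- **Result.** Let `F` be a stationary wave in `ℝ^d`, `δ > 0`, and let `A` be a set of real numbers
of finite Lebesgue (outer) measure `|A|` with `|t| ≥ δ` for all `t ∈ A`. Then the probability that
`F(0) ∈ A` is at most `(2 d / π) √(2 |A| / δ)`. -/
theorem result {d : ℕ} {S : Type*} [MeasurableSpace S] (P : Measure S)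
    (F : S → EuclideanSpace ℝ (Fin d) → ℝ) (hF : IsStationaryWave P F)
    (δ : ℝ) (hδ : 0 < δ) (A : Set ℝ) (hA : ∀ t ∈ A, δ ≤ |t|) (hA' : volume A ≠ ⊤) :
    (P {s | F s 0 ∈ A}).toReal ≤ 2 * d / Real.pi * √(2 * (volume A).toReal / δ) := by
  have := hF.prob
  obtain ⟨Φ, mΦ, v1, hQ, hτ, W⟩ := Pool.Agent.K6.H16.LC.canon (P := P) hF.measurable hF.smooth
    hF.eigen hF.stationary hF.moment
  refine le_trans ?_ (Pool.Agent.K6.H29.OP.bound hτ W hδ hA hA')
  refine ENNReal.toReal_mono (measure_ne_top _ _) ?_
  refine le_trans (le_of_eq ?_) (Measure.le_map_apply mΦ.aemeasurable _)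
  congr 1
  ext s
  simp only [Set.mem_preimage, Set.mem_ofPred_eq, v1]

end

end Pool.Agent.Results.MP_4fa179_mp.ValueDistribution
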